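import Pool.Agent.T9h20.TF.Spec

/-!
# (T) The whole window
-/

set_option autoImplicit false

open MeasureTheory Set Filter Topology

namespace Pool.Agent.T9h26.TF

open Pool.Agent.T9h20.TF
open Pool.Agent.T9h20.TA (mon mx)
open Pool.Agent.T9h20.TE (DD)

theorem sTot : SAlt → SDec → STot := by
  intro hA hS k q t m _ b d al c a D Y A hD hY hA0 hal hd ha hc hb N n y hy hyY halt hne hbd hn
  classical
  obtain ⟨X, nx, s0, hX, hx, hcov, hdom⟩ := hS q t c a hc Y hY
  obtain ⟨C, hC⟩ : ∃ C : ℝ, C = (18 * ((k : ℝ) ^ 2 + 2) *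
      Real.log (1 + 2 * Y * ((m + 1) * D)) + 1) * (n + 1) := ⟨_, rfl⟩
  have hC0 : 0 ≤ C := by
    rw [hC]
    have h1 : 0 ≤ Real.log (1 + 2 * Y * ((m + 1) * D)) := by
      apply Real.log_nonneg
      have : 0 ≤ 2 * Y * ((m + 1) * D) := by positivity
      linarith
    positivity
  rw [← hC]
  have key : ∀ x ∈ X,
      (((Finset.range (N + 1)).filter (fun l => y l ∈ Ico x (nx x))).card : ℝ) ≤ C := by
    intro x hxX
    obtain ⟨I, hI⟩ : ∃ I : Finset ℕ,
      I = (Finset.range (N + 1)).filter (fun l => y l ∈ Ico x (nx x)) := ⟨_, rfl⟩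
    rw [← hI]
    rcases I.eq_empty_or_nonempty with h0 | h0
    · rw [h0]
      simpa using hC0
    · obtain ⟨l0, hl0⟩ : ∃ l0, l0 = I.min' h0 := ⟨_, rfl⟩
      obtain ⟨l1, hl1⟩ : ∃ l1, l1 = I.max' h0 := ⟨_, rfl⟩
      have m0 : l0 ∈ I := by rw [hl0]; exact Finset.min'_mem _ _
      have m1 : l1 ∈ I := by rw [hl1]; exact Finset.max'_mem _ _
      have hmem : ∀ l ∈ I, l0 ≤ l ∧ l ≤ l1 := fun l hl => by
        rw [hl0, hl1]
        exact ⟨Finset.min'_le _ _ hl, Finset.le_max' _ _ hl⟩
      have h01 : l0 ≤ l1 := (hmem l1 m1).1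
      have hcard : I.card ≤ (l1 - l0) + 1 := by
        have hsub : I ⊆ Finset.Icc l0 l1 := fun l hl => Finset.mem_Icc.2 (hmem l hl)
        have h2 := Finset.card_le_card hsub
        rw [Nat.card_Icc] at h2
        omega
      rw [hI, Finset.mem_filter, Finset.mem_range] at m0 m1
      have happ := hA k q t m b d al c a D Y A hD hY hA0 hal hd ha (s0 x) x (nx x) (hx x hxX).1
        (hx x hxX).2.1 (hx x hxX).2.2 hc hb (hdom x hxX) (l1 - l0) n (fun l => y (l0 + l))
        (fun l l' hl => hy (by omega))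
        (fun l hl => ⟨m0.2.1.trans (hy.monotone (by omega)),
          (hy.monotone (by omega : l0 + l ≤ l1)).trans m1.2.2.le⟩)
        (fun l hl => halt (l0 + l) (by omega))
        (fun l hl => hne (l0 + l) (by omega))
        (fun l hl i => hbd (l0 + l) (by omega) i) hn
      rw [← hC] at happ
      refine le_trans ?_ happ
      exact_mod_cast hcard
  have hsum : N + 1 ≤ ∑ x ∈ X,
      ((Finset.range (N + 1)).filter (fun l => y l ∈ Ico x (nx x))).card := by
    have h1 : Finset.range (N + 1) ⊆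
        X.biUnion (fun x => (Finset.range (N + 1)).filter (fun l => y l ∈ Ico x (nx x))) := by
      intro l hl
      obtain ⟨x, hxX, hxy⟩ := hcov (y l) (hyY l (by rw [Finset.mem_range] at hl; omega))
      exact Finset.mem_biUnion.2 ⟨x, hxX, Finset.mem_filter.2 ⟨hl, hxy⟩⟩
    have h2 := (Finset.card_le_card h1).trans Finset.card_biUnion_le
    rwa [Finset.card_range] at h2
  calc (N : ℝ) + 1 ≤ ∑ x ∈ X,
        (((Finset.range (N + 1)).filter (fun l => y l ∈ Ico x (nx x))).card : ℝ) := by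
        exact_mod_cast hsum
    _ ≤ ∑ _x ∈ X, C := Finset.sum_le_sum key
    _ = (X.card : ℝ) * C := by rw [Finset.sum_const, nsmul_eq_mul]
    _ ≤ (2 * q * t + 1) * C := by
        apply mul_le_mul_of_nonneg_right _ hC0
        exact_mod_cast hX

end Pool.Agent.T9h26.TF
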