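import Pool.Agent.T9h20.TF.Spec

/-!
# (E) No crossing of the sizes near a point
-/

set_option autoImplicit false

open MeasureTheory Set Filter Topology

namespace Pool.Agent.T9h26.TF

open Pool.Agent.T9h20.TF
open Pool.Agent.T9h20.TA (mon mx)
open Pool.Agent.T9h20.TE (DD)

theorem env_core {k : ℕ} (i1 : Fin k) (β e : Fin k → ℝ) (hβ : ∀ i, 0 ≤ β i) (p r : ℝ) (hpr : p < r) :
    ∃ B : Finset ℝ, B.card ≤ k ^ 2 + 2 ∧ (∀ x ∈ B, p ≤ x ∧ x ≤ r) ∧
      ∀ y ∈ Icc p r, ∃ i0 : Fin k, ∀ x, (∀ x' ∈ B, |x - y| < |x' - y|) → x ∈ Icc p r ∧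
        ∀ i, β i * Real.exp (e i * x) ≤ β i0 * Real.exp (e i0 * x) := by
  classical
  obtain ⟨C, hC⟩ : ∃ C : Finset ℝ, C = (Finset.univ : Finset (Fin k × Fin k)).image
    (fun q => Real.log (β q.1 / β q.2) / (e q.2 - e q.1)) := ⟨_, rfl⟩
  refine ⟨insert p (insert r (C.filter (fun z => z ∈ Ioo p r))), ?_, ?_, ?_⟩
  · have h1 : (C.filter (fun z => z ∈ Ioo p r)).card ≤ k ^ 2 := by
      refine (Finset.card_filter_le _ _).trans ?_
      rw [hC]
      refine Finset.card_image_le.trans ?_
      rw [Finset.card_univ, Fintype.card_prod, Fintype.card_fin, pow_two]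
    have h2 := Finset.card_insert_le p (insert r (C.filter (fun z => z ∈ Ioo p r)))
    have h3 := Finset.card_insert_le r (C.filter (fun z => z ∈ Ioo p r))
    omega
  · intro x hx
    rw [Finset.mem_insert, Finset.mem_insert, Finset.mem_filter] at hx
    rcases hx with rfl | rfl | hx
    · exact ⟨le_rfl, hpr.le⟩
    · exact ⟨hpr.le, le_rfl⟩
    · exact ⟨hx.2.1.le, hx.2.2.le⟩
  · intro y hy
    obtain ⟨i0, -, hi0⟩ := Finset.exists_max_image (Finset.univ : Finset (Fin k))
      (fun i => β i * Real.exp (e i * y)) ⟨i1, Finset.mem_univ _⟩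
    refine ⟨i0, fun x hx => ?_⟩
    have hxp := hx p (Finset.mem_insert_self _ _)
    have hxr := hx r (Finset.mem_insert_of_mem (Finset.mem_insert_self _ _))
    rw [abs_of_nonpos (by linarith [hy.1] : p - y ≤ 0)] at hxp
    rw [abs_of_nonneg (by linarith [hy.2] : 0 ≤ r - y)] at hxr
    have h1 : p < x := by
      have := neg_abs_le (x - y)
      linarith
    have h2 : x < r := by
      have := le_abs_self (x - y)
      linarith
    have hyp : p < y := by
      have := abs_nonneg (x - y)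
      linarith
    have hyr : y < r := by
      have := abs_nonneg (x - y)
      linarith
    refine ⟨⟨h1.le, h2.le⟩, fun i => ?_⟩
    have hmax : β i * Real.exp (e i * y) ≤ β i0 * Real.exp (e i0 * y) := hi0 i (Finset.mem_univ _)
    rcases (hβ i).eq_or_lt with h0 | hpos
    · rw [← h0, zero_mul]
      exact mul_nonneg (hβ i0) (Real.exp_pos _).le
    have hpos0 : 0 < β i0 := by
      have h3 : 0 < β i0 * Real.exp (e i0 * y) :=
        lt_of_lt_of_le (mul_pos hpos (Real.exp_pos _)) hmax
      exact pos_of_mul_pos_left h3 (Real.exp_pos _).le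
    have key : ∀ u : ℝ, β i * Real.exp (e i * u) ≤ β i0 * Real.exp (e i0 * u) ↔
        (e i - e i0) * u ≤ Real.log (β i0 / β i) := by
      intro u
      rw [Real.le_log_iff_exp_le (div_pos hpos0 hpos), le_div_iff₀ hpos]
      have e1 : Real.exp ((e i - e i0) * u) = Real.exp (e i * u) / Real.exp (e i0 * u) := by
        rw [← Real.exp_sub]
        congr 1
        ring
      rw [e1, div_mul_eq_mul_div, div_le_iff₀ (Real.exp_pos _), mul_comm (Real.exp (e i * u))]
    rw [key] at hmax ⊢
    by_cases he : e i - e i0 = 0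
    · rw [he, zero_mul] at hmax ⊢
      exact hmax
    obtain ⟨y0, hy0⟩ : ∃ y0, y0 = Real.log (β i0 / β i) / (e i - e i0) := ⟨_, rfl⟩
    have ey : Real.log (β i0 / β i) = (e i - e i0) * y0 := by
      rw [hy0, mul_div_cancel₀ _ he]
    have hmem : y0 ∈ Ioo p r → |x - y| < |y0 - y| := by
      intro hin
      apply hx
      refine Finset.mem_insert_of_mem (Finset.mem_insert_of_mem (Finset.mem_filter.2 ⟨?_, hin⟩))
      rw [hC]
      exact Finset.mem_image.2 ⟨(i0, i), Finset.mem_univ _, hy0.symm⟩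
    rw [ey] at hmax ⊢
    rcases lt_or_gt_of_ne he with hneg | hgt
    · -- decreasing: y0 ≤ y, want y0 ≤ x
      have h3 : y0 ≤ y := by
        by_contra hcon
        push Not at hcon
        nlinarith
      have h4 : y0 ≤ x := by
        by_contra hcon
        push Not at hcon
        have h5 := hmem ⟨h1.trans hcon, lt_of_le_of_lt h3 hyr⟩
        rw [abs_of_nonpos (by linarith : y0 - y ≤ 0)] at h5
        have := neg_abs_le (x - y)
        linarith
      exact mul_le_mul_of_nonpos_left h4 hneg.le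
    · have h3 : y ≤ y0 := by
        by_contra hcon
        push Not at hcon
        nlinarith
      have h4 : x ≤ y0 := by
        by_contra hcon
        push Not at hcon
        have h5 := hmem ⟨lt_of_lt_of_le hyp h3, hcon.trans h2⟩
        rw [abs_of_nonneg (by linarith : 0 ≤ y0 - y)] at h5
        have := le_abs_self (x - y)
        linarith
      exact mul_le_mul_of_nonneg_left h4 hgt.le

theorem sEnv : SEnv := by
  intro k q t _ b d al c a s0 p r hpr hc hb hdom
  obtain ⟨i1, -⟩ := hb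
  obtain ⟨B, hB1, hB2, hB3⟩ := env_core i1
    (fun i => |b i| * ∏ j, |c j (s0 j)| ^ al i j)
    (fun i => d i + ∑ j, (al i j : ℝ) * a j (s0 j))
    (fun i => mul_nonneg (abs_nonneg _) (Finset.prod_nonneg fun j _ => pow_nonneg (abs_nonneg _) _))
    p r hpr
  have hMM : ∀ (i : Fin k) (x : ℝ), x ∈ Icc p r → MM b d al c a i x =
      (|b i| * ∏ j, |c j (s0 j)| ^ al i j) * Real.exp ((d i + ∑ j, (al i j : ℝ) * a j (s0 j)) * x) := by
    intro i x hx
    have h1 : ∀ j, mx (c j) (a j) x = |c j (s0 j)| * Real.exp (a j (s0 j) * x) := by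
      intro j
      have h2 : x ∈ DD (c j) (a j) (s0 j) :=
        Pool.Agent.T9h20.TE.DD_conn (hc j) (hdom j).1 (hdom j).2 hx.1 hx.2
      rw [Pool.Agent.T9h20.TE.mx_eq h2, Pool.Agent.T9h81.TE.abs_mon]
    unfold MM
    simp only [h1, mul_pow, Finset.prod_mul_distrib]
    have h3 : ∏ j, Real.exp (a j (s0 j) * x) ^ al i j =
        Real.exp ((∑ j, (al i j : ℝ) * a j (s0 j)) * x) := by
      rw [Finset.sum_mul, Real.exp_sum]
      refine Finset.prod_congr rfl fun j _ => ?_
      rw [← Real.exp_nat_mul]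
      congr 1
      ring
    rw [h3, add_mul, Real.exp_add]
    ring
  refine ⟨B, hB1, hB2, fun y hy => ?_⟩
  obtain ⟨i0, hi0⟩ := hB3 y hy
  refine ⟨i0, d i0 + ∑ j, (al i0 j : ℝ) * a j (s0 j), fun x hx i => ?_⟩
  obtain ⟨h1, h2⟩ := hi0 x hx
  rw [hMM i x h1, hMM i0 y hy]
  refine (h2 i).trans (le_of_eq ?_)
  rw [mul_assoc (|b i0| * _), ← Real.exp_add]
  congr 2
  ring

end Pool.Agent.T9h26.TF
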