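import Pool.Agent.T9h20.TF.Spec

/-!
# (Z) Many zeros near the centre of a disc
-/

set_option autoImplicit false

open MeasureTheory Set Filter Topology

namespace Pool.Agent.T9h26.TF

open Pool.Agent.T9h20.TF

theorem zero_aux (w : ℂ) (R : ℝ) (hR : 0 < R) : ∀ (n : ℕ) (Z : Finset ℂ), Z.card = n →
    ∀ (f : ℂ → ℂ) (M : ℝ), Differentiable ℂ f → (∀ z, ‖z - w‖ ≤ R → ‖f z‖ ≤ M) →
    (∀ z ∈ Z, ‖z - w‖ ≤ R / 4 ∧ f z = 0) → ‖f w‖ ≤ M * (1 / 3) ^ n := by
  intro n
  induction n with
  | zero =>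
    intro Z _ f M _ hM _
    simpa using hM w (by simpa using hR.le)
  | succ n ih =>
    intro Z hZ f M hf hM hz
    have hne : Z.Nonempty := by
      rw [← Finset.card_pos, hZ]
      omega
    obtain ⟨z1, hz1⟩ := hne
    have hM0 : 0 ≤ M := (norm_nonneg _).trans (hM w (by simpa using hR.le))
    obtain ⟨h1, h2⟩ := hz z1 hz1
    obtain ⟨g, hg⟩ : ∃ g : ℂ → ℂ, g = dslope f z1 := ⟨_, rfl⟩
    have hgd : Differentiable ℂ g := by
      rw [hg]
      exact differentiableOn_univ.1 ((Complex.differentiableOn_dslope (s := univ)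
        Filter.univ_mem).2 hf.differentiableOn)
    have hfg : ∀ z, f z = (z - z1) * g z := by
      intro z
      have := sub_smul_dslope f z1 z
      rw [← hg, smul_eq_mul, h2, sub_zero] at this
      exact this.symm
    have hgM : ∀ z, ‖z - w‖ ≤ R → ‖g z‖ ≤ M / (3 * R / 4) := by
      intro z hzR
      have hb : ∀ z ∈ frontier (Metric.ball w R), ‖g z‖ ≤ M / (3 * R / 4) := by
        intro z hz'
        rw [frontier_ball w hR.ne', mem_sphere_iff_norm] at hz'
        have h3 := hM z hz'.le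
        rw [hfg z, norm_mul] at h3
        have h4 : 3 * R / 4 ≤ ‖z - z1‖ := by
          have h5 : ‖z - w‖ ≤ ‖z - z1‖ + ‖z1 - w‖ := by
            have := norm_add_le (z - z1) (z1 - w)
            rwa [sub_add_sub_cancel] at this
          rw [hz'] at h5
          linarith
        rw [le_div_iff₀ (by positivity)]
        calc ‖g z‖ * (3 * R / 4) ≤ ‖g z‖ * ‖z - z1‖ :=
              mul_le_mul_of_nonneg_left h4 (norm_nonneg _)
          _ = ‖z - z1‖ * ‖g z‖ := mul_comm _ _
          _ ≤ M := h3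
      apply Complex.norm_le_of_forall_mem_frontier_norm_le Metric.isBounded_ball
        hgd.diffContOnCl hb
      rw [closure_ball w hR.ne', Metric.mem_closedBall, dist_eq_norm]
      exact hzR
    have hgz : ∀ z ∈ Z.erase z1, ‖z - w‖ ≤ R / 4 ∧ g z = 0 := by
      intro z hz'
      obtain ⟨h3, h4⟩ := Finset.mem_erase.1 hz'
      refine ⟨(hz z h4).1, ?_⟩
      have h5 := hfg z
      rw [(hz z h4).2] at h5
      exact (mul_eq_zero.1 h5.symm).resolve_left (sub_ne_zero.2 h3)
    have h6 := ih (Z.erase z1) (by rw [Finset.card_erase_of_mem hz1, hZ]; rfl) g _ hgd hgM hgz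
    rw [hfg w, norm_mul]
    have h7 : ‖w - z1‖ ≤ R / 4 := by rwa [norm_sub_rev]
    calc ‖w - z1‖ * ‖g w‖ ≤ R / 4 * (M / (3 * R / 4) * (1 / 3) ^ n) :=
          mul_le_mul h7 h6 (norm_nonneg _) (by positivity)
      _ = M * (1 / 3) ^ (n + 1) := by
          field_simp
          ring

theorem sZero : SZero := fun f w R M Z hR hf hM hz =>
  zero_aux w R hR Z.card Z rfl f M hf hM hz

end Pool.Agent.T9h26.TF
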